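import Mathlib

/-!
# k-blocked point sets: definitions
-/

namespace Pool.Agent.Lib.MP_b92725_co

/-- the Euclidean plane -/
abbrev Plane := EuclideanSpace ℝ (Fin 2)

/-- The colouring `c` shows that the finite set `P` is `k`-blocked: two distinct points of `P` have
the same colour exactly when the open segment between them contains a point of `P`. -/
def Blocked (k : ℕ) (P : Finset Plane) (c : Plane → Fin k) : Prop :=
  ∀ p ∈ P, ∀ q ∈ P, p ≠ q → (c p = c q ↔ ∃ r ∈ P, r ∈ openSegment ℝ p q)

end Pool.Agent.Lib.MP_b92725_co
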