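import Mathlib
import Pool.Agent.Lib.MP_b92725_co.Defs

/-!
# A 5-blocked set of eighteen points with a colour class of six points

The configuration is invariant under the linear map `(x, y) ↦ (-y, x - y)` of order three; it has
six orbits of three points.  Its coordinates are rational functions of a root `t` of a quintic.
The incidences (nine base ones and their rotations) are exact identities; everything else is
checked on integer approximations at scale `10⁻⁴`.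
-/

namespace Pool.Agent.Lib.MP_b92725_co

/-- orientation determinant of three points of the plane -/
def D (p q r : ℝ × ℝ) : ℝ := (q.1 - p.1) * (r.2 - p.2) - (q.2 - p.2) * (r.1 - p.1)

/-- the quintic whose root gives the configuration -/
lemma exists_root : ∃ t : ℝ, 0.7120396 ≤ t ∧ t ≤ 0.7120397 ∧
    37 * t ^ 5 - 123 * t ^ 4 + 106 * t ^ 3 + 34 * t ^ 2 - 88 * t + 32 = 0 := by
  have hc : ContinuousOn (fun t : ℝ => 37 * t ^ 5 - 123 * t ^ 4 + 106 * t ^ 3 + 34 * t ^ 2 - 88 * t + 32)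
      (Set.Icc 0.7120396 0.7120397) := by fun_prop
  have h := intermediate_value_Icc' (by norm_num) hc
  have h0 : (0 : ℝ) ∈ Set.Icc
      ((fun t : ℝ => 37 * t ^ 5 - 123 * t ^ 4 + 106 * t ^ 3 + 34 * t ^ 2 - 88 * t + 32) 0.7120397)
      ((fun t : ℝ => 37 * t ^ 5 - 123 * t ^ 4 + 106 * t ^ 3 + 34 * t ^ 2 - 88 * t + 32) 0.7120396) := by
    constructor <;> norm_num
  obtain ⟨t, ht, h2⟩ := h h0
  exact ⟨t, ht.1, ht.2, h2⟩

lemma D_zero {p q r : ℝ × ℝ} (x1 y1 w1 x2 y2 w2 x3 y3 w3 : ℝ)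
    (h1 : w1 ≠ 0) (h2 : w2 ≠ 0) (h3 : w3 ≠ 0)
    (a1 : p.1 * w1 = x1) (b1 : p.2 * w1 = y1) (a2 : q.1 * w2 = x2) (b2 : q.2 * w2 = y2)
    (a3 : r.1 * w3 = x3) (b3 : r.2 * w3 = y3)
    (hd : x1 * (y2 * w3 - y3 * w2) - y1 * (x2 * w3 - x3 * w2) + w1 * (x2 * y3 - x3 * y2) = 0) :
    D p q r = 0 := by
  have h : w1 * w2 * w3 * D p q r = 0 := by
    rw [← hd, ← a1, ← b1, ← a2, ← b2, ← a3, ← b3]
    simp only [D]
    ring
  have hne : w1 * w2 * w3 ≠ 0 := mul_ne_zero (mul_ne_zero h1 h2) h3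
  exact (mul_eq_zero.mp h).resolve_left hne

/-- existence of the seven real parameters -/
lemma exists_params : ∃ ax ay bx b_y cx cy t : ℝ,
    |ax - 15.0681| ≤ 0.0001 ∧ |ay - 4.6894| ≤ 0.0001 ∧ |bx - 9.1251| ≤ 0.0001 ∧
    |b_y - 0.0751| ≤ 0.0001 ∧ |cx - 1.7306| ≤ 0.0001 ∧ |cy - 2.1397| ≤ 0.0001 ∧
    |t - 0.7120| ≤ 0.0001 ∧
    D (ax, ay) (bx, b_y) (ay - ax, -ax) = 0 ∧
    D (ax, ay) (cx, cy) (1, 2) = 0 ∧
    D (ax, ay) (1 + t, -t) (1, -1) = 0 ∧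
    D (ax, ay) (1, 0) (-2, -1) = 0 ∧
    D (bx, b_y) (cx, cy) (t, 1 + 2 * t) = 0 ∧
    D (bx, b_y) (1 + t, -t) (-1, -1) = 0 ∧
    D (cx, cy) (1, 0) (cy - cx, -cx) = 0 ∧
    D (1 + t, -t) (1, 0) (0, 1) = 0 ∧
    D (1, 2) (1, 0) (1, -1) = 0 := by
  obtain ⟨t, h1, h2, hq⟩ := exists_root
  have dA : 0 < 3 - 4 * t := by linarith
  have dB : 0 < 12 - 19 * t + 4 * t ^ 2 := by nlinarith
  have dC : 0 < 4 - 10 * t + 7 * t ^ 2 := by nlinarith
  have dA' := dA.ne'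
  have dB' := dB.ne'
  have dC' := dC.ne'
  obtain ⟨ax, hax⟩ : ∃ ax : ℝ, ax * (3 - 4 * t) = 3 - t := ⟨(3 - t) / (3 - 4 * t), div_mul_cancel₀ _ dA'⟩
  obtain ⟨ay, hay⟩ : ∃ ay : ℝ, ay * (3 - 4 * t) = t := ⟨t / (3 - 4 * t), div_mul_cancel₀ _ dA'⟩
  obtain ⟨bx, hbx⟩ : ∃ bx : ℝ, bx * (12 - 19 * t + 4 * t ^ 2) = -4 + 17 * t - 7 * t ^ 2 :=
    ⟨(-4 + 17 * t - 7 * t ^ 2) / (12 - 19 * t + 4 * t ^ 2), div_mul_cancel₀ _ dB'⟩
  obtain ⟨b_y, hby⟩ : ∃ b_y : ℝ, b_y * (12 - 19 * t + 4 * t ^ 2) = -8 + 12 * t - t ^ 2 :=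
    ⟨(-8 + 12 * t - t ^ 2) / (12 - 19 * t + 4 * t ^ 2), div_mul_cancel₀ _ dB'⟩
  obtain ⟨cx, hcx⟩ : ∃ cx : ℝ, cx * (4 - 10 * t + 7 * t ^ 2) = 2 * (1 - t) * (2 - t) :=
    ⟨(2 * (1 - t) * (2 - t)) / (4 - 10 * t + 7 * t ^ 2), div_mul_cancel₀ _ dC'⟩
  obtain ⟨cy, hcy⟩ : ∃ cy : ℝ, cy * (4 - 10 * t + 7 * t ^ 2) = t * (2 - t) :=
    ⟨(t * (2 - t)) / (4 - 10 * t + 7 * t ^ 2), div_mul_cancel₀ _ dC'⟩
  refine ⟨ax, ay, bx, b_y, cx, cy, t, ?_, ?_, ?_, ?_, ?_, ?_, ?_, ?_, ?_, ?_, ?_, ?_, ?_, ?_, ?_, ?_⟩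
  · rw [eq_div_of_mul_eq dA' hax, abs_le]; constructor
    · rw [le_sub_iff_add_le, le_div_iff₀ dA]; nlinarith
    · rw [sub_le_iff_le_add, div_le_iff₀ dA]; nlinarith
  · rw [eq_div_of_mul_eq dA' hay, abs_le]; constructor
    · rw [le_sub_iff_add_le, le_div_iff₀ dA]; nlinarith
    · rw [sub_le_iff_le_add, div_le_iff₀ dA]; nlinarith
  · rw [eq_div_of_mul_eq dB' hbx, abs_le]; constructor
    · rw [le_sub_iff_add_le, le_div_iff₀ dB]; nlinarith
    · rw [sub_le_iff_le_add, div_le_iff₀ dB]; nlinarith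
  · rw [eq_div_of_mul_eq dB' hby, abs_le]; constructor
    · rw [le_sub_iff_add_le, le_div_iff₀ dB]; nlinarith
    · rw [sub_le_iff_le_add, div_le_iff₀ dB]; nlinarith
  · rw [eq_div_of_mul_eq dC' hcx, abs_le]; constructor
    · rw [le_sub_iff_add_le, le_div_iff₀ dC]; nlinarith
    · rw [sub_le_iff_le_add, div_le_iff₀ dC]; nlinarith
  · rw [eq_div_of_mul_eq dC' hcy, abs_le]; constructor
    · rw [le_sub_iff_add_le, le_div_iff₀ dC]; nlinarith
    · rw [sub_le_iff_le_add, div_le_iff₀ dC]; nlinarith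
  · rw [abs_le]; constructor <;> linarith
  · exact D_zero _ _ _ _ _ _ (t - (3 - t)) (-(3 - t)) _ dA' dB' dA' hax hay hbx hby
      (by dsimp only; rw [sub_mul, hax, hay]) (by dsimp only; rw [neg_mul, hax]) (by ring)
  · exact D_zero _ _ _ _ _ _ 1 2 1 dA' dC' one_ne_zero hax hay hcx hcy (by norm_num) (by norm_num) (by ring)
  · exact D_zero _ _ _ (1 + t) (-t) 1 1 (-1) 1 dA' one_ne_zero one_ne_zero hax hay (by simp) (by simp) (by simp) (by simp) (by ring)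
  · exact D_zero _ _ _ 1 0 1 (-2) (-1) 1 dA' one_ne_zero one_ne_zero hax hay (by simp) (by simp) (by simp) (by simp) (by ring)
  · exact D_zero _ _ _ _ _ _ t (1 + 2 * t) 1 dB' dC' one_ne_zero hbx hby hcx hcy (by simp) (by simp)
      (by linear_combination (3 : ℝ) * hq)
  · exact D_zero _ _ _ (1 + t) (-t) 1 (-1) (-1) 1 dB' one_ne_zero one_ne_zero hbx hby (by simp) (by simp) (by simp) (by simp) (by ring)
  · exact D_zero _ _ _ 1 0 1 (t * (2 - t) - 2 * (1 - t) * (2 - t)) (-(2 * (1 - t) * (2 - t))) _ dC' one_ne_zero dC' hcx hcy (by simp) (by simp)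
      (by dsimp only; rw [sub_mul, hcx, hcy]) (by dsimp only; rw [neg_mul, hcx]) (by ring)
  · simp only [D]; ring
  · simp only [D]; ring

/-! ### Rotations, the eighteen points and their integer approximations -/

/-- the linear map of order three, iterated `k` times -/
def rotR (k : Fin 3) (p : ℝ × ℝ) : ℝ × ℝ :=
  match k with
  | 0 => p
  | 1 => (-p.2, p.1 - p.2)
  | 2 => (p.2 - p.1, -p.1)

/-- the same map on integer pairs -/
def rotZ (k : Fin 3) (p : ℤ × ℤ) : ℤ × ℤ :=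
  match k with
  | 0 => p
  | 1 => (-p.2, p.1 - p.2)
  | 2 => (p.2 - p.1, -p.1)

abbrev Ix := Fin 6 × Fin 3

def pts (B : Fin 6 → ℝ × ℝ) (i : Ix) : ℝ × ℝ := rotR i.2 (B i.1)

def baseZ : Fin 6 → ℤ × ℤ :=
  ![(150681, 46894), (91251, 751), (17306, 21397), (17120, -7120), (10000, 20000), (10000, 0)]

def ptsZ (i : Ix) : ℤ × ℤ := rotZ i.2 (baseZ i.1)

def col (i : Ix) : Fin 5 :=
  (![![0, 0, 0], ![1, 3, 4], ![2, 2, 2], ![4, 1, 3], ![0, 0, 0], ![3, 4, 1]] : Fin 6 → Fin 3 → Fin 5) i.1 i.2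

/-- the nine base incidences: end, middle, end -/
def T : Fin 9 → Ix × Ix × Ix :=
  ![((0, 0), (1, 0), (0, 2)), ((0, 0), (2, 0), (4, 0)), ((0, 0), (3, 0), (4, 2)),
    ((0, 0), (5, 0), (4, 1)), ((1, 0), (2, 0), (3, 1)), ((1, 0), (3, 0), (5, 2)),
    ((2, 0), (5, 0), (2, 2)), ((3, 0), (5, 0), (5, 1)), ((4, 0), (5, 0), (4, 2))]

def turn (k : Fin 3) (i : Ix) : Ix := (i.1, i.2 + k)

def DZ (p q r : ℤ × ℤ) : ℤ := (q.1 - p.1) * (r.2 - p.2) - (q.2 - p.2) * (r.1 - p.1)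

lemma pts_turn (B : Fin 6 → ℝ × ℝ) (k : Fin 3) (i : Ix) : pts B (turn k i) = rotR k (pts B i) := by
  obtain ⟨j, s⟩ := i
  fin_cases s <;> fin_cases k <;> simp [pts, turn, rotR] <;> ring

lemma D_rot (k : Fin 3) (p q r : ℝ × ℝ) : D (rotR k p) (rotR k q) (rotR k r) = D p q r := by
  fin_cases k <;> simp [D, rotR] <;> ring

/-- `r` lies strictly between `p` and `q` -/
def Btw (p r q : ℝ × ℝ) : Prop :=
  ∃ a b : ℝ, 0 < a ∧ 0 < b ∧ a + b = 1 ∧ a * p.1 + b * q.1 = r.1 ∧ a * p.2 + b * q.2 = r.2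

lemma btw_symm {p r q : ℝ × ℝ} (h : Btw p r q) : Btw q r p := by
  obtain ⟨a, b, ha, hb, hab, h1, h2⟩ := h
  exact ⟨b, a, hb, ha, by linarith, by linarith, by linarith⟩

lemma btw_x {p r q : ℝ × ℝ} (hD : D p r q = 0) (h1 : p.1 < r.1) (h2 : r.1 < q.1) : Btw p r q := by
  have h : 0 < q.1 - p.1 := by linarith
  refine ⟨(q.1 - r.1) / (q.1 - p.1), (r.1 - p.1) / (q.1 - p.1), div_pos (by linarith) h,
    div_pos (by linarith) h, ?_, ?_, ?_⟩
  · rw [← add_div, div_eq_one_iff_eq h.ne']; ring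
  · rw [div_mul_eq_mul_div, div_mul_eq_mul_div, ← add_div, div_eq_iff h.ne']; ring
  · rw [div_mul_eq_mul_div, div_mul_eq_mul_div, ← add_div, div_eq_iff h.ne']
    simp only [D] at hD
    linarith

lemma btw_y {p r q : ℝ × ℝ} (hD : D p r q = 0) (h1 : p.2 < r.2) (h2 : r.2 < q.2) : Btw p r q := by
  have h : 0 < q.2 - p.2 := by linarith
  refine ⟨(q.2 - r.2) / (q.2 - p.2), (r.2 - p.2) / (q.2 - p.2), div_pos (by linarith) h,
    div_pos (by linarith) h, ?_, ?_, ?_⟩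
  · rw [← add_div, div_eq_one_iff_eq h.ne']; ring
  · rw [div_mul_eq_mul_div, div_mul_eq_mul_div, ← add_div, div_eq_iff h.ne']
    simp only [D] at hD
    linarith
  · rw [div_mul_eq_mul_div, div_mul_eq_mul_div, ← add_div, div_eq_iff h.ne']; ring

lemma D_symm {p r q : ℝ × ℝ} (h : D p r q = 0) : D q r p = 0 := by
  simp only [D] at h ⊢; linarith

lemma btw_D {p r q : ℝ × ℝ} (h : Btw p r q) : D p r q = 0 := by
  obtain ⟨a, b, ha, hb, hab, h1, h2⟩ := h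
  simp only [D]
  rw [← h1, ← h2]
  have : a = 1 - b := by linarith
  subst this
  ring

/-- closeness of a real point to an integer point at scale `10⁻⁴` -/
def Ap (e : ℝ) (p : ℝ × ℝ) (z : ℤ × ℤ) : Prop :=
  (|10000 * p.1 - z.1| ≤ e) ∧ (|10000 * p.2 - z.2| ≤ e)

lemma ap_rot {p : ℝ × ℝ} {z : ℤ × ℤ} (h : Ap 1 p z) (k : Fin 3) : Ap 2 (rotR k p) (rotZ k z) := by
  obtain ⟨h1, h2⟩ := h
  rw [abs_le] at h1 h2
  unfold Ap
  rw [abs_le, abs_le]
  fin_cases k <;> simp [rotR, rotZ] <;> refine ⟨⟨?_, ?_⟩, ?_, ?_⟩ <;> linarith [h1.1, h1.2, h2.1, h2.2]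

lemma det_bound {u v w z : ℝ} {U V W Z : ℝ} (hu : |u - U| ≤ 4) (hv : |v - V| ≤ 4) (hw : |w - W| ≤ 4)
    (hz : |z - Z| ≤ 4) (bU : |U| ≤ 310000) (bV : |V| ≤ 310000) (bW : |W| ≤ 310000) (bZ : |Z| ≤ 310000)
    (h : u * z - v * w = 0) : |U * Z - V * W| ≤ 10000000 := by
  have e : U * Z - V * W = -((u - U) * Z) - u * (z - Z) + (v - V) * W + v * (w - W) := by
    linear_combination h
  have bu : |u| ≤ 310004 := by
    calc |u| = |(u - U) + U| := by ring_nf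
      _ ≤ |u - U| + |U| := abs_add_le _ _
      _ ≤ 310004 := by linarith
  have bv : |v| ≤ 310004 := by
    calc |v| = |(v - V) + V| := by ring_nf
      _ ≤ |v - V| + |V| := abs_add_le _ _
      _ ≤ 310004 := by linarith
  have t1 : |(u - U) * Z| ≤ 4 * 310000 := by
    rw [abs_mul]; exact mul_le_mul hu bZ (abs_nonneg _) (by norm_num)
  have t2 : |u * (z - Z)| ≤ 310004 * 4 := by
    rw [abs_mul]; exact mul_le_mul bu hz (abs_nonneg _) (by norm_num)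
  have t3 : |(v - V) * W| ≤ 4 * 310000 := by
    rw [abs_mul]; exact mul_le_mul hv bW (abs_nonneg _) (by norm_num)
  have t4 : |v * (w - W)| ≤ 310004 * 4 := by
    rw [abs_mul]; exact mul_le_mul bv hw (abs_nonneg _) (by norm_num)
  rw [abs_le] at t1 t2 t3 t4 ⊢
  rw [e]
  constructor <;> linarith [t1.1, t1.2, t2.1, t2.2, t3.1, t3.2, t4.1, t4.2]

/-- integer certificate that `R` is not between `P` and `Q` -/
def Sep (P R Q : ℤ × ℤ) : Prop :=
  10000000 < DZ P R Q ∨ DZ P R Q < -10000000 ∨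
  (P.1 + 10 < R.1 ∧ Q.1 + 10 < R.1) ∨ (R.1 + 10 < P.1 ∧ R.1 + 10 < Q.1) ∨
  (P.2 + 10 < R.2 ∧ Q.2 + 10 < R.2) ∨ (R.2 + 10 < P.2 ∧ R.2 + 10 < Q.2)

instance (P R Q : ℤ × ℤ) : Decidable (Sep P R Q) := by unfold Sep; infer_instance

/-- integer certificate that `R` is strictly between `P` and `Q` in one coordinate -/
def Mid (P R Q : ℤ × ℤ) : Prop :=
  (P.1 + 10 < R.1 ∧ R.1 + 10 < Q.1) ∨ (Q.1 + 10 < R.1 ∧ R.1 + 10 < P.1) ∨
  (P.2 + 10 < R.2 ∧ R.2 + 10 < Q.2) ∨ (Q.2 + 10 < R.2 ∧ R.2 + 10 < P.2)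

instance (P R Q : ℤ × ℤ) : Decidable (Mid P R Q) := by unfold Mid; infer_instance

lemma btw_of_mid {p r q : ℝ × ℝ} {P R Q : ℤ × ℤ} (hp : Ap 2 p P) (hr : Ap 2 r R) (hq : Ap 2 q Q)
    (hD : D p r q = 0) (hM : Mid P R Q) : Btw p r q := by
  obtain ⟨p1, p2⟩ := hp
  obtain ⟨r1, r2⟩ := hr
  obtain ⟨q1, q2⟩ := hq
  rw [abs_le] at p1 p2 r1 r2 q1 q2
  rcases hM with ⟨a, b⟩ | ⟨a, b⟩ | ⟨a, b⟩ | ⟨a, b⟩
  · have a' : (P.1 : ℝ) + 10 < R.1 := by exact_mod_cast a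
    have b' : (R.1 : ℝ) + 10 < Q.1 := by exact_mod_cast b
    exact btw_x hD (by linarith [p1.1, p1.2, r1.1, r1.2]) (by linarith [q1.1, q1.2, r1.1, r1.2])
  · have a' : (Q.1 : ℝ) + 10 < R.1 := by exact_mod_cast a
    have b' : (R.1 : ℝ) + 10 < P.1 := by exact_mod_cast b
    exact btw_symm (btw_x (D_symm hD) (by linarith [q1.1, q1.2, r1.1, r1.2]) (by linarith [p1.1, p1.2, r1.1, r1.2]))
  · have a' : (P.2 : ℝ) + 10 < R.2 := by exact_mod_cast a
    have b' : (R.2 : ℝ) + 10 < Q.2 := by exact_mod_cast b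
    exact btw_y hD (by linarith [p2.1, p2.2, r2.1, r2.2]) (by linarith [q2.1, q2.2, r2.1, r2.2])
  · have a' : (Q.2 : ℝ) + 10 < R.2 := by exact_mod_cast a
    have b' : (R.2 : ℝ) + 10 < P.2 := by exact_mod_cast b
    exact btw_symm (btw_y (D_symm hD) (by linarith [q2.1, q2.2, r2.1, r2.2]) (by linarith [p2.1, p2.2, r2.1, r2.2]))

/-- coordinates of the integer points are small -/
def Small (P : ℤ × ℤ) : Prop := (-155000 ≤ P.1 ∧ P.1 ≤ 155000) ∧ (-155000 ≤ P.2 ∧ P.2 ≤ 155000)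

instance (P : ℤ × ℤ) : Decidable (Small P) := by unfold Small; infer_instance

lemma not_btw_of_sep {p r q : ℝ × ℝ} {P R Q : ℤ × ℤ} (hp : Ap 2 p P) (hr : Ap 2 r R) (hq : Ap 2 q Q)
    (sP : Small P) (sR : Small R) (sQ : Small Q) (hS : Sep P R Q) : ¬ Btw p r q := by
  intro hB
  have hD := btw_D hB
  obtain ⟨a, b, ha, hb, hab, e1, e2⟩ := hB
  have haa : a = 1 - b := by linarith
  obtain ⟨p1, p2⟩ := hp
  obtain ⟨r1, r2⟩ := hr
  obtain ⟨q1, q2⟩ := hq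
  obtain ⟨⟨sp1, sp2⟩, sp3, sp4⟩ := sP
  obtain ⟨⟨sr1, sr2⟩, sr3, sr4⟩ := sR
  obtain ⟨⟨sq1, sq2⟩, sq3, sq4⟩ := sQ
  have sp1' : (-155000 : ℝ) ≤ P.1 := by exact_mod_cast sp1
  have sp2' : (P.1 : ℝ) ≤ 155000 := by exact_mod_cast sp2
  have sp3' : (-155000 : ℝ) ≤ P.2 := by exact_mod_cast sp3
  have sp4' : (P.2 : ℝ) ≤ 155000 := by exact_mod_cast sp4
  have sr1' : (-155000 : ℝ) ≤ R.1 := by exact_mod_cast sr1
  have sr2' : (R.1 : ℝ) ≤ 155000 := by exact_mod_cast sr2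
  have sr3' : (-155000 : ℝ) ≤ R.2 := by exact_mod_cast sr3
  have sr4' : (R.2 : ℝ) ≤ 155000 := by exact_mod_cast sr4
  have sq1' : (-155000 : ℝ) ≤ Q.1 := by exact_mod_cast sq1
  have sq2' : (Q.1 : ℝ) ≤ 155000 := by exact_mod_cast sq2
  have sq3' : (-155000 : ℝ) ≤ Q.2 := by exact_mod_cast sq3
  have sq4' : (Q.2 : ℝ) ≤ 155000 := by exact_mod_cast sq4
  rw [abs_le] at p1 p2 r1 r2 q1 q2
  obtain ⟨p1a, p1b⟩ := p1
  obtain ⟨p2a, p2b⟩ := p2
  obtain ⟨r1a, r1b⟩ := r1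
  obtain ⟨r2a, r2b⟩ := r2
  obtain ⟨q1a, q1b⟩ := q1
  obtain ⟨q2a, q2b⟩ := q2
  have key : |((R.1 : ℝ) - P.1) * ((Q.2 : ℝ) - P.2) - ((R.2 : ℝ) - P.2) * ((Q.1 : ℝ) - P.1)| ≤ 10000000 := by
    refine det_bound (u := 10000 * r.1 - 10000 * p.1) (z := 10000 * q.2 - 10000 * p.2)
      (v := 10000 * r.2 - 10000 * p.2) (w := 10000 * q.1 - 10000 * p.1) ?_ ?_ ?_ ?_ ?_ ?_ ?_ ?_ ?_
    · rw [abs_le]; constructor <;> linarith
    · rw [abs_le]; constructor <;> linarith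
    · rw [abs_le]; constructor <;> linarith
    · rw [abs_le]; constructor <;> linarith
    · rw [abs_le]; constructor <;> linarith
    · rw [abs_le]; constructor <;> linarith
    · rw [abs_le]; constructor <;> linarith
    · rw [abs_le]; constructor <;> linarith
    · simp only [D] at hD
      linear_combination 100000000 * hD
  rw [abs_le] at key
  obtain ⟨k1, k2⟩ := key
  rcases hS with h | h | ⟨h, h'⟩ | ⟨h, h'⟩ | ⟨h, h'⟩ | ⟨h, h'⟩
  · have h1 : (10000000 : ℝ) < ((R.1 : ℝ) - P.1) * ((Q.2 : ℝ) - P.2) - ((R.2 : ℝ) - P.2) * ((Q.1 : ℝ) - P.1) := by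
      simp only [DZ] at h
      exact_mod_cast h
    linarith
  · have h1 : ((R.1 : ℝ) - P.1) * ((Q.2 : ℝ) - P.2) - ((R.2 : ℝ) - P.2) * ((Q.1 : ℝ) - P.1) < -10000000 := by
      simp only [DZ] at h
      exact_mod_cast h
    linarith
  · have h1 : (P.1 : ℝ) + 10 < R.1 := by exact_mod_cast h
    have h2 : (Q.1 : ℝ) + 10 < R.1 := by exact_mod_cast h'
    have g1 : 10000 * p.1 < 10000 * r.1 := by linarith
    have g2 : 10000 * q.1 < 10000 * r.1 := by linarith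
    have g1' : 0 < r.1 - p.1 := by linarith
    have g2' : 0 < r.1 - q.1 := by linarith
    have := mul_pos ha g1'
    have := mul_pos hb g2'
    subst haa
    nlinarith
  · have h1 : (R.1 : ℝ) + 10 < P.1 := by exact_mod_cast h
    have h2 : (R.1 : ℝ) + 10 < Q.1 := by exact_mod_cast h'
    have g1' : 0 < p.1 - r.1 := by linarith
    have g2' : 0 < q.1 - r.1 := by linarith
    have := mul_pos ha g1'
    have := mul_pos hb g2'
    subst haa
    nlinarith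
  · have h1 : (P.2 : ℝ) + 10 < R.2 := by exact_mod_cast h
    have h2 : (Q.2 : ℝ) + 10 < R.2 := by exact_mod_cast h'
    have g1' : 0 < r.2 - p.2 := by linarith
    have g2' : 0 < r.2 - q.2 := by linarith
    have := mul_pos ha g1'
    have := mul_pos hb g2'
    subst haa
    nlinarith
  · have h1 : (R.2 : ℝ) + 10 < P.2 := by exact_mod_cast h
    have h2 : (R.2 : ℝ) + 10 < Q.2 := by exact_mod_cast h'
    have g1' : 0 < p.2 - r.2 := by linarith
    have g2' : 0 < q.2 - r.2 := by linarith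
    have := mul_pos ha g1'
    have := mul_pos hb g2'
    subst haa
    nlinarith

/-! ### Finite checks -/

lemma check_sep : ∀ i k j : Ix, k ≠ i → k ≠ j → col i ≠ col j → Sep (ptsZ i) (ptsZ k) (ptsZ j) := by
  decide +kernel

lemma check_small : ∀ i : Ix, Small (ptsZ i) := by decide +kernel

lemma check_mid : ∀ n : Fin 9, ∀ k : Fin 3,
    Mid (ptsZ (turn k (T n).1)) (ptsZ (turn k (T n).2.1)) (ptsZ (turn k (T n).2.2)) := by
  decide +kernel

lemma check_pairs : ∀ i j : Ix, i ≠ j → col i = col j →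
    ∃ n : Fin 9, ∃ k : Fin 3,
      (i = turn k (T n).1 ∧ j = turn k (T n).2.2) ∨ (j = turn k (T n).1 ∧ i = turn k (T n).2.2) := by
  decide +kernel

lemma check_inj : ∀ i j : Ix, i ≠ j →
    ((ptsZ i).1 + 10 < (ptsZ j).1 ∨ (ptsZ j).1 + 10 < (ptsZ i).1 ∨
     (ptsZ i).2 + 10 < (ptsZ j).2 ∨ (ptsZ j).2 + 10 < (ptsZ i).2) := by
  decide +kernel

lemma check_card : ∀ a : Fin 5,
    (Finset.univ.filter (fun i : Ix => col i = a)).card = if a = 0 then 6 else 3 := by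
  decide +kernel

/-! ### The Euclidean plane -/

def emb (p : ℝ × ℝ) : Plane := !₂[p.1, p.2]

lemma emb_inj : Function.Injective emb := by
  intro p q h
  have h0 := congrFun (congrArg (fun v : Plane => v.ofLp) h) 0
  have h1 := congrFun (congrArg (fun v : Plane => v.ofLp) h) 1
  simp [emb] at h0 h1
  exact Prod.ext h0 h1

lemma mem_seg {p r q : ℝ × ℝ} : emb r ∈ openSegment ℝ (emb p) (emb q) ↔ Btw p r q := by
  constructor
  · rintro ⟨a, b, ha, hb, hab, h⟩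
    have h0 := congrFun (congrArg (fun v : Plane => v.ofLp) h) 0
    have h1 := congrFun (congrArg (fun v : Plane => v.ofLp) h) 1
    simp [emb] at h0 h1
    exact ⟨a, b, ha, hb, hab, h0, h1⟩
  · rintro ⟨a, b, ha, hb, hab, h0, h1⟩
    refine ⟨a, b, ha, hb, hab, ?_⟩
    ext i
    fin_cases i
    · simpa [emb] using h0
    · simpa [emb] using h1

lemma ap_mono {p : ℝ × ℝ} {z : ℤ × ℤ} (h : Ap 1 p z) : Ap 2 p z :=
  ⟨h.1.trans (by norm_num), h.2.trans (by norm_num)⟩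

lemma exists_config : ∃ B : Fin 6 → ℝ × ℝ, (∀ j, Ap 1 (B j) (baseZ j)) ∧
    ∀ n : Fin 9, D (pts B (T n).1) (pts B (T n).2.1) (pts B (T n).2.2) = 0 := by
  obtain ⟨ax, ay, bx, b_y, cx, cy, t, h1, h2, h3, h4, h5, h6, h7, e1, e2, e3, e4, e5, e6, e7, e8, e9⟩ :=
    exists_params
  rw [abs_le] at h1 h2 h3 h4 h5 h6 h7
  obtain ⟨h1a, h1b⟩ := h1
  obtain ⟨h2a, h2b⟩ := h2
  obtain ⟨h3a, h3b⟩ := h3
  obtain ⟨h4a, h4b⟩ := h4
  obtain ⟨h5a, h5b⟩ := h5
  obtain ⟨h6a, h6b⟩ := h6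
  obtain ⟨h7a, h7b⟩ := h7
  refine ⟨![(ax, ay), (bx, b_y), (cx, cy), (1 + t, -t), (1, 2), (1, 0)], ?_, ?_⟩
  · intro j
    unfold Ap
    rw [abs_le, abs_le]
    fin_cases j
    · simp [baseZ]; refine ⟨⟨?_, ?_⟩, ?_, ?_⟩ <;> linarith
    · simp [baseZ]; refine ⟨⟨?_, ?_⟩, ?_, ?_⟩ <;> linarith
    · simp [baseZ]; refine ⟨⟨?_, ?_⟩, ?_, ?_⟩ <;> linarith
    · simp [baseZ]; refine ⟨⟨?_, ?_⟩, ?_, ?_⟩ <;> linarith
    · simp [baseZ]; norm_num
    · simp [baseZ]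
  · intro n
    fin_cases n
    · simpa [T, pts, rotR] using e1
    · simpa [T, pts, rotR] using e2
    · have : (2 : ℝ) - 1 = 1 := by norm_num
      simpa [T, pts, rotR, this] using e3
    · have : (1 : ℝ) - 2 = -1 := by norm_num
      simpa [T, pts, rotR, this] using e4
    · have : (1 : ℝ) + t + t = 1 + 2 * t := by ring
      simpa [T, pts, rotR, this] using e5
    · simpa [T, pts, rotR] using e6
    · simpa [T, pts, rotR] using e7
    · simpa [T, pts, rotR] using e8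
    · have : (2 : ℝ) - 1 = 1 := by norm_num
      simpa [T, pts, rotR, this] using e9

/-- The eighteen-point example. -/
theorem example18 : ∃ (P : Finset Plane) (c : Plane → Fin 5),
    Blocked 5 P c ∧ P.card = 18 ∧
      ∀ i : Fin 5, (P.filter (fun p => c p = i)).card = if i = 0 then 6 else 3 := by
  obtain ⟨B, hB, hT⟩ := exists_config
  have hA : ∀ i : Ix, Ap 2 (pts B i) (ptsZ i) := fun i => ap_rot (hB i.1) i.2
  have hinj : Function.Injective (fun i : Ix => emb (pts B i)) := by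
    intro i j hij
    by_contra hne
    have hp : pts B i = pts B j := emb_inj hij
    obtain ⟨i1, i2⟩ := hA i
    obtain ⟨j1, j2⟩ := hA j
    rw [hp] at i1 i2
    rw [abs_le] at i1 i2 j1 j2
    rcases check_inj i j hne with h | h | h | h
    · have h' : ((ptsZ i).1 : ℝ) + 10 < (ptsZ j).1 := by exact_mod_cast h
      linarith [i1.1, i1.2, j1.1, j1.2]
    · have h' : ((ptsZ j).1 : ℝ) + 10 < (ptsZ i).1 := by exact_mod_cast h
      linarith [i1.1, i1.2, j1.1, j1.2]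
    · have h' : ((ptsZ i).2 : ℝ) + 10 < (ptsZ j).2 := by exact_mod_cast h
      linarith [i2.1, i2.2, j2.1, j2.2]
    · have h' : ((ptsZ j).2 : ℝ) + 10 < (ptsZ i).2 := by exact_mod_cast h
      linarith [i2.1, i2.2, j2.1, j2.2]
  classical
  let f : Ix → Plane := fun i => emb (pts B i)
  let c : Plane → Fin 5 := Function.extend f col (fun _ => 0)
  have hc : ∀ i, c (f i) = col i := fun i => hinj.extend_apply _ _ _
  refine ⟨Finset.univ.image f, c, ?_, ?_, ?_⟩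
  · intro p hp q hq hpq
    obtain ⟨i, -, rfl⟩ := Finset.mem_image.mp hp
    obtain ⟨j, -, rfl⟩ := Finset.mem_image.mp hq
    have hij : i ≠ j := fun h => hpq (by rw [h])
    rw [hc, hc]
    constructor
    · intro hcol
      obtain ⟨n, k, h⟩ := check_pairs i j hij hcol
      have hb : Btw (pts B (turn k (T n).1)) (pts B (turn k (T n).2.1)) (pts B (turn k (T n).2.2)) := by
        refine btw_of_mid (hA _) (hA _) (hA _) ?_ (check_mid n k)
        rw [pts_turn, pts_turn, pts_turn, D_rot]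
        exact hT n
      refine ⟨f (turn k (T n).2.1), Finset.mem_image_of_mem _ (Finset.mem_univ _), ?_⟩
      rcases h with ⟨rfl, rfl⟩ | ⟨rfl, rfl⟩
      · exact mem_seg.mpr hb
      · exact mem_seg.mpr (btw_symm hb)
    · rintro ⟨r, hr, hs⟩
      obtain ⟨k, -, rfl⟩ := Finset.mem_image.mp hr
      have hb : Btw (pts B i) (pts B k) (pts B j) := mem_seg.mp hs
      by_contra hcol
      have hki : k ≠ i := by
        rintro rfl
        have := left_mem_openSegment_iff.mp hs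
        exact hpq this
      have hkj : k ≠ j := by
        rintro rfl
        have := right_mem_openSegment_iff.mp hs
        exact hpq this
      exact not_btw_of_sep (hA i) (hA k) (hA j) (check_small i) (check_small k) (check_small j)
        (check_sep i k j hki hkj hcol) hb
  · rw [Finset.card_image_of_injective _ hinj]
    rfl
  · intro a
    rw [Finset.filter_image, Finset.card_image_of_injective _ hinj]
    simp only [hc]
    exact check_card a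

end Pool.Agent.Lib.MP_b92725_co
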